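import Pool.Agent.W957.CH.Stm2

/-! Project CH (MP_d275fd_co, S11629): windows (CH-WNB). -/

namespace Pool.Agent.W177.CH

open Pool.Agent.W957.CH Finset

theorem sg_len {V : Type} (c : ℕ → V) (a b : ℕ) : (sg c a b).length = b + 1 - a := by simp [sg]

theorem mem_sg {V : Type} (c : ℕ → V) (a b : ℕ) (v : V) :
    v ∈ sg c a b ↔ ∃ i, a ≤ i ∧ i ≤ b ∧ c i = v := by
  simp only [sg, List.mem_map, List.mem_range'_1]
  constructor
  · rintro ⟨i, ⟨h1, h2⟩, rfl⟩
    exact ⟨i, h1, by omega, rfl⟩
  · rintro ⟨i, h1, h2, rfl⟩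
    exact ⟨i, ⟨h1, by omega⟩, rfl⟩

theorem sg_cons {V : Type} (c : ℕ → V) (a b : ℕ) (h : a < b) :
    sg c a b = c a :: sg c (a + 1) b := by
  unfold sg
  have : b + 1 - a = (b + 1 - (a + 1)) + 1 := by omega
  rw [this, List.range'_succ, List.map_cons]

theorem sg_self {V : Type} (c : ℕ → V) (a : ℕ) : sg c a a = [c a] := by simp [sg]

theorem PF_join {V : Type} {G : SimpleGraph V} {u v u' v' : V} {l l' : List V}
    (h : PF G u v l) (h' : PF G u' v' l') (ha : G.Adj v u') (hd : ∀ x ∈ l, x ∉ l') :
    PF G u v' (l ++ l') := by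
  obtain ⟨⟨h1, h2⟩, h3, h4⟩ := h
  obtain ⟨⟨k1, k2⟩, k3, k4⟩ := h'
  refine ⟨⟨?_, ?_⟩, ?_, ?_⟩
  · rw [List.nodup_append]
    refine ⟨h1, k1, ?_⟩
    intro a ha' b hb hab
    exact hd a ha' (hab ▸ hb)
  · rw [List.isChain_append]
    refine ⟨h2, k2, ?_⟩
    intro a ha' b hb
    rw [h4] at ha'
    rw [k3] at hb
    simp only [Option.mem_def, Option.some.injEq] at ha' hb
    subst ha'
    subst hb
    exact ha
  · rw [List.head?_append, h3]
    rfl
  · rw [List.getLast?_append, k4]
    rfl

theorem PF_sg {V : Type} {G : SimpleGraph V} {n : ℕ} {c : ℕ → V} (hc : CR G n c) :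
    ∀ (d a b : ℕ), b = a + d → b < n → PF G (c a) (c b) (sg c a b) := by
  intro d
  induction d with
  | zero =>
    intro a b hab hb
    obtain rfl : b = a := by omega
    rw [sg_self]
    exact ⟨⟨by simp, by simp⟩, by simp, by simp⟩
  | succ d ih =>
    intro a b hab hb
    rw [sg_cons c a b (by omega)]
    have h1 : PF G (c a) (c a) [c a] := ⟨⟨by simp, by simp⟩, by simp, by simp⟩
    have h2 := ih (a + 1) b (by omega) hb
    have h3 := PF_join h1 h2 (hc.adj a (by omega)) (by
      intro x hx hx'
      rw [List.mem_singleton] at hx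
      subst hx
      rw [mem_sg] at hx'
      obtain ⟨i, hi1, hi2, hi3⟩ := hx'
      have := hc.inj i a (by omega) (by omega) hi3
      omega)
    simpa using h3

theorem xmono {V : Type} [DecidableEq V] {X : Cx V} {n : ℕ} {c : ℕ → V} {τ N : ℕ}
    {x y : ℕ → ℕ} {K : ℕ → Finset V} (h : Lad X n c τ N x y K) :
    ∀ d i j, j = i + d → j ≤ N → x i + d * (τ + 1) ≤ x j := by
  intro d
  induction d with
  | zero =>
    intro i j hij hj
    obtain rfl : j = i := by omega
    omega
  | succ d ih =>
    intro i j hij hj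
    have h1 := ih i (i + d) rfl (by omega)
    have h2 := h.xi (i + d) (by omega)
    obtain rfl : j = i + d + 1 := by omega
    have : (d + 1) * (τ + 1) = d * (τ + 1) + (τ + 1) := by ring
    omega

theorem ymono {V : Type} [DecidableEq V] {X : Cx V} {n : ℕ} {c : ℕ → V} {τ N : ℕ}
    {x y : ℕ → ℕ} {K : ℕ → Finset V} (h : Lad X n c τ N x y K) :
    ∀ d i j, j = i + d → j ≤ N → y j + d * (τ + 1) ≤ y i := by
  intro d
  induction d with
  | zero =>
    intro i j hij hj
    obtain rfl : j = i := by omega
    omega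
  | succ d ih =>
    intro i j hij hj
    have h1 := ih i (i + d) rfl (by omega)
    have h2 := h.yd (i + d) (by omega)
    obtain rfl : j = i + d + 1 := by omega
    have : (d + 1) * (τ + 1) = d * (τ + 1) + (τ + 1) := by ring
    omega

theorem t_WNB (h1 : S_PC0) (h2 : S_PCS) (h3 : S_WLOC) (h4 : S_4A) : S_WNB := by
  classical
  intro V _ X n c τ σ N x y K r s hS hL hrs hsN
  have hok := hS.ok
  have hgood := hS.good
  have hcr := hgood.cr
  obtain ⟨p1, p2, p3, p4⟩ := h1 V X n c hok hgood
  -- order facts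
  have x0r : x 0 ≤ x r := by
    have := xmono hL r 0 r (by omega) (by omega); omega
  have xrr : x r + 1 ≤ x (r + 1) := by
    have := xmono hL 1 r (r + 1) (by omega) (by omega); omega
  have xrs : x (r + 1) + (s - r - 2) * (τ + 1) ≤ x (s - 1) :=
    xmono hL (s - r - 2) (r + 1) (s - 1) (by omega) (by omega)
  have xss : x (s - 1) + 1 ≤ x s := by
    have := xmono hL 1 (s - 1) s (by omega) (by omega); omega
  have xsN : x s ≤ x N := by
    have := xmono hL (N - s) s N (by omega) (by omega); omega
  have y0r : y r ≤ y 0 := by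
    have := ymono hL r 0 r (by omega) (by omega); omega
  have yrr : y (r + 1) + 1 ≤ y r := by
    have := ymono hL 1 r (r + 1) (by omega) (by omega); omega
  have yrs : y (s - 1) + (s - r - 2) * (τ + 1) ≤ y (r + 1) :=
    ymono hL (s - r - 2) (r + 1) (s - 1) (by omega) (by omega)
  have yss : y s + 1 ≤ y (s - 1) := by
    have := ymono hL 1 (s - 1) s (by omega) (by omega); omega
  have ysN : y N ≤ y s := by
    have := ymono hL (N - s) s N (by omega) (by omega); omega
  have xy := hL.xy
  have yn := hL.yn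
  have hd1 : σ + 1 ≤ (s - r - 2) * (τ + 1) := by
    have : (s - r - 2) * 1 ≤ (s - r - 2) * (τ + 1) := Nat.mul_le_mul_left _ (by omega)
    omega
  have hd2 : τ + 1 ≤ (s - r - 2) * (τ + 1) := by
    have : 1 * (τ + 1) ≤ (s - r - 2) * (τ + 1) := Nat.mul_le_mul_right _ (by omega)
    omega
  generalize hD : (s - r - 2) * (τ + 1) = D at *
  -- window
  have hwin : win x y r s = Icc (x r + 1) (x s - 1) ∪ Icc (y s + 1) (y r - 1) := by
    ext i
    simp only [win, mem_union, mem_Ioo, mem_Icc]
    omega
  have hcl : ∀ i ∈ win x y r s, Cl X n c i := by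
    intro i hi
    simp only [win, mem_union, mem_Ioo] at hi
    rcases hi with hi | hi
    · exact hL.cx i (by omega) (by omega)
    · exact hL.cy i (by omega) (by omega)
  obtain ⟨q1, q2, -, q4⟩ := h2 V X n c (win x y r s) hok hgood hcl
  obtain ⟨kr1, kr2, kr3⟩ := hL.K (r + 1) (by omega)
  obtain ⟨ks1, ks2, ks3⟩ := hL.K (s - 1) (by omega)
  have hcon : Con X.G (pcs X n c (win x y r s)) :=
    q4 (x r + 1) (x s - 1) (y s + 1) (y r - 1) (K (r + 1)) (x (r + 1)) (y (r + 1)) hwin
      (by omega) (by omega) (by omega) (by omega) kr1 kr2 kr3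
  refine ⟨hcon, ?_, ?_⟩
  · have hsub : ((Icc (x 0) (x N) ∪ Icc (y N) (y 0)).filter
        (fun j => c j ∈ nbr X.G X.A (pcs X n c (win x y r s)))) ⊆
        (Icc (x r - τ) (x r) ∪ Icc (x s) (x s + τ)) ∪
          (Icc (y s - τ) (y s) ∪ Icc (y r) (y r + τ)) := by
      intro j hj
      rw [mem_filter] at hj
      obtain ⟨hj1, hj2⟩ := hj
      rw [q2] at hj2
      obtain ⟨j', hj'n, hj'I, hjj', hj3⟩ := hj2
      have hj1' : (x 0 ≤ j ∧ j ≤ x N) ∨ (y N ≤ j ∧ j ≤ y 0) := by
        simpa only [mem_union, mem_Icc] using hj1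
      have hjn : j < n := by omega
      obtain rfl : j = j' := hcr.inj j j' hjn hj'n hjj'
      have hnI : ¬ ((x r < j ∧ j < x s) ∨ (y s < j ∧ j < y r)) := by
        simpa only [win, mem_union, mem_Ioo] using hj'I
      simp only [mem_union, mem_Icc]
      rcases hj3 with ⟨i, hi, hc⟩ | ⟨M, hM, hMj, i, hi, hMi⟩
      · simp only [win, mem_union, mem_Ioo] at hi
        unfold Pool.Agent.W957.CH.cons at hc
        omega
      · have h := h3 V X n c τ σ N x y K r s i j M hS hL (by omega) hsN hi hM hMi hMj hj1'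
        omega
    refine (card_le_card hsub).trans ?_
    refine (card_union_le _ _).trans ?_
    have e1 := card_union_le (Icc (x r - τ) (x r)) (Icc (x s) (x s + τ))
    have e2 := card_union_le (Icc (y s - τ) (y s)) (Icc (y r) (y r + τ))
    simp only [Nat.card_Icc] at e1 e2
    omega
  · by_contra hlt
    have hle : (nbr X.G X.A (pcs X n c (win x y r s))).card ≤ bb X.m τ := Nat.le_of_not_lt hlt
    -- the two components are different
    have hne : K (r + 1) ≠ K (s - 1) := by
      intro he
      have h := h4 V X n c τ σ (x (r + 1)) (x (s - 1)) (K (r + 1)) hS (by omega)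
        (by have := hL.sx; omega) (fun p hp1 hp2 => hL.cx p (by omega) (by omega)) kr1 kr2
        (by rw [he]; exact ks2)
      omega
    -- the ears
    obtain ⟨Q1, ⟨⟨u1, v1, hQ1, hu1, hv1⟩, hQ1A⟩, hQ1K⟩ :=
      p4 (x (s - 1)) (y (s - 1)) (K (s - 1)) ks1 ks2 ks3
    obtain ⟨Q2, ⟨⟨u2, v2, hQ2, hu2, hv2⟩, hQ2A⟩, hQ2K⟩ :=
      p4 (y (r + 1)) (x (r + 1)) (K (r + 1)) kr1 kr3 kr2
    have hS1 := PF_sg hcr (x (s - 1) - x (r + 1)) (x (r + 1)) (x (s - 1)) (by omega) (by omega)
    have hS2 := PF_sg hcr (y (r + 1) - y (s - 1)) (y (s - 1)) (y (r + 1)) (by omega) (by omega)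
    have himg : ∀ i, i < n → c i ∈ img n c := fun i hi =>
      mem_image_of_mem c (mem_range.mpr hi)
    have hJ1 := PF_join hS1 hQ1 hu1 (by
      intro z hz hz'
      rw [mem_sg] at hz
      obtain ⟨i, hi1, hi2, rfl⟩ := hz
      exact (hQ1A _ hz').2 (himg i (by omega)))
    have hJ2 := PF_join hJ1 hS2 hv1 (by
      intro z hz hz'
      rw [mem_sg] at hz'
      obtain ⟨i, hi1, hi2, rfl⟩ := hz'
      rw [List.mem_append] at hz
      rcases hz with hz | hz
      · rw [mem_sg] at hz
        obtain ⟨i', hi1', hi2', he⟩ := hz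
        have := hcr.inj i' i (by omega) (by omega) he
        omega
      · exact (hQ1A _ hz).2 (himg i (by omega)))
    have hJ3 := PF_join hJ2 hQ2 hu2 (by
      intro z hz hz'
      rw [List.mem_append, List.mem_append] at hz
      rcases hz with (hz | hz) | hz
      · rw [mem_sg] at hz
        obtain ⟨i, hi1, hi2, rfl⟩ := hz
        exact (hQ2A _ hz').2 (himg i (by omega))
      · exact hne (p2 _ _ z kr1 ks1 (hQ2K z hz') (hQ1K z hz))
      · rw [mem_sg] at hz
        obtain ⟨i, hi1, hi2, rfl⟩ := hz
        exact (hQ2A _ hz').2 (himg i (by omega)))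
    have hlen : σ + 2 ≤ (((sg c (x (r + 1)) (x (s - 1)) ++ Q1) ++
        sg c (y (s - 1)) (y (r + 1))) ++ Q2).length := by
      simp only [List.length_append, sg_len]
      omega
    have hlen3 : 3 ≤ (((sg c (x (r + 1)) (x (s - 1)) ++ Q1) ++
        sg c (y (s - 1)) (y (r + 1))) ++ Q2).length := by
      simp only [List.length_append, sg_len]
      omega
    have hcyc : Cyc X.G (((sg c (x (r + 1)) (x (s - 1)) ++ Q1) ++
        sg c (y (s - 1)) (y (r + 1))) ++ Q2) := by
      refine ⟨hlen3, hJ3.1, ?_⟩
      intro a b ha hb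
      rw [hJ3.2.1] at ha
      rw [hJ3.2.2] at hb
      rw [Option.some.injEq] at ha hb
      subst ha
      subst hb
      exact hv2
    -- membership in the window set
    have hpI : ∀ i ∈ win x y r s, c i ∈ pcs X n c (win x y r s) := by
      intro i hi
      unfold pcs
      rw [mem_filter]
      exact ⟨hgood.sub i (hcl i hi).1, Or.inl ⟨i, hi, rfl⟩⟩
    have hpK : ∀ M i z, i ∈ win x y r s → Comp X n c M → At X c M i → z ∈ M →
        z ∈ pcs X n c (win x y r s) := by
      intro M i z hi hM hMi hz
      unfold pcs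
      rw [mem_filter]
      exact ⟨hM.2.1 hz, Or.inr ⟨M, hM, hz, i, hi, hMi⟩⟩
    have hmemP : ∀ z ∈ (((sg c (x (r + 1)) (x (s - 1)) ++ Q1) ++
        sg c (y (s - 1)) (y (r + 1))) ++ Q2), z ∈ pcs X n c (win x y r s) := by
      intro z hz
      rw [List.mem_append, List.mem_append, List.mem_append] at hz
      rcases hz with ((hz | hz) | hz) | hz
      · rw [mem_sg] at hz
        obtain ⟨i, hi1, hi2, rfl⟩ := hz
        apply hpI
        simp only [win, mem_union, mem_Ioo]
        omega
      · refine hpK (K (s - 1)) (x (s - 1)) z ?_ ks1 ks2 (hQ1K z hz)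
        simp only [win, mem_union, mem_Ioo]
        omega
      · rw [mem_sg] at hz
        obtain ⟨i, hi1, hi2, rfl⟩ := hz
        apply hpI
        simp only [win, mem_union, mem_Ioo]
        omega
      · refine hpK (K (r + 1)) (x (r + 1)) z ?_ kr1 kr2 (hQ2K z hz)
        simp only [win, mem_union, mem_Ioo]
        omega
    -- the set is not everything
    have hnA : pcs X n c (win x y r s) ∪ nbr X.G X.A (pcs X n c (win x y r s)) ≠ X.A := by
      intro he
      have hsub : img n c ⊆ (win x y r s).image c ∪ nbr X.G X.A (pcs X n c (win x y r s)) := by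
        intro z hz
        obtain ⟨i, hi, rfl⟩ := mem_image.mp hz
        rw [mem_range] at hi
        have hzA : c i ∈ X.A := hgood.sub i hi
        rw [← he, mem_union] at hzA
        rw [mem_union]
        rcases hzA with h | h
        · left
          unfold pcs at h
          rw [mem_filter] at h
          rcases h.2 with ⟨i', hi', he'⟩ | ⟨M, hM, hzM, -⟩
          · exact mem_image.mpr ⟨i', hi', he'.symm⟩
          · exact absurd (himg i hi) (disjoint_left.mp hM.2.2.1 hzM)
        · exact Or.inr h
      have hcard := card_le_card hsub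
      have hn : (img n c).card = n := by
        unfold img
        rw [card_image_of_injOn, card_range]
        intro a ha b hb hab
        exact hcr.inj a b (by simpa using ha) (by simpa using hb) hab
      rw [hn] at hcard
      have c1 := card_union_le ((win x y r s).image c) (nbr X.G X.A (pcs X n c (win x y r s)))
      have c2 : ((win x y r s).image c).card ≤ (win x y r s).card := card_image_le
      have c3 : (win x y r s).card ≤ (x s - x r) + (y r - y s) := by
        unfold win
        refine (card_union_le _ _).trans ?_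
        rw [Nat.card_Ioo, Nat.card_Ioo]
        omega
      have := hL.sx
      have := hL.sy
      have := hS.big
      have := hcr.three
      omega
    have hPA : pcs X n c (win x y r s) ⊆ X.A := by
      unfold pcs
      exact filter_subset _ _
    have hreg := (hok.reg (pcs X n c (win x y r s)) hPA hcon.1 q1 hnA).2 _ hcyc
      (fun z hz => mem_union_left _ (hmemP z hz))
    have := hS.par.s _ (hreg.trans hle)
    omega

end Pool.Agent.W177.CH
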